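import Pool.Agent.W307.RS.Stm

/-! Task TRS-COMBK: the largest unlinked set. -/

set_option autoImplicit false
set_option linter.unusedSectionVars false

namespace Pool.Agent.W12.RS

open Finset Pool.Agent.W262.RK Pool.Agent.W307.RT Pool.Agent.W307.RS

/-- bit to `ZMod 2` -/
def bt (b : Bool) : ZMod 2 := if b then 1 else 0

lemma bt_inj : Function.Injective bt := by decide

/-- vector of `(F_2^2)^k` -/
def vc {k : ℕ} (v : Fin k → Bool × Bool) : Fin k × Fin 2 → ZMod 2 :=
  fun a => if a.2 = 0 then bt (v a.1).1 else bt (v a.1).2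

lemma vc_inj {k : ℕ} : Function.Injective (vc (k := k)) := by
  intro v w h
  funext a
  have h0 := congrFun h (a, 0)
  have h1 := congrFun h (a, 1)
  simp only [vc, if_true] at h0
  simp only [vc, if_neg (show ¬ (1 : Fin 2) = 0 by decide)] at h1
  exact Prod.ext (bt_inj h0) (bt_inj h1)

lemma bt_xor (a b c d : Bool) : (if xor (a && b) (c && d) = true then (1 : ZMod 2) else 0) =
    bt a * bt b + bt c * bt d := by
  revert a b c d; decide

lemma dK_eq {k : ℕ} (v x : Fin k → Bool × Bool) :
    ((dK k v x : ℕ) : ZMod 2) = ∑ a, vc x a * vc v a := by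
  unfold dK
  rw [card_filter, Nat.cast_sum, Fintype.sum_prod_type]
  refine sum_congr rfl fun a _ => ?_
  rw [Fin.sum_univ_two]
  simp only [vc, if_true, if_neg (show ¬ (1 : Fin 2) = 0 by decide)]
  rw [← bt_xor]
  split_ifs <;> simp

section iso

variable {κ : Type} [Fintype κ] [DecidableEq κ]

/-- the alternating form on `F_2^κ × F_2^κ` -/
noncomputable def fm : ((κ → ZMod 2) × (κ → ZMod 2)) →ₗ[ZMod 2]
    ((κ → ZMod 2) × (κ → ZMod 2)) →ₗ[ZMod 2] ZMod 2 :=
  LinearMap.mk₂ (ZMod 2) (fun u w => ∑ a, (u.2 a * w.1 a + u.1 a * w.2 a))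
    (fun u u' w => by
      rw [← sum_add_distrib]
      refine sum_congr rfl fun a _ => ?_
      simp only [Prod.snd_add, Prod.fst_add, Pi.add_apply]
      ring)
    (fun c u w => by
      rw [smul_eq_mul, mul_sum]
      refine sum_congr rfl fun a _ => ?_
      simp only [Prod.smul_snd, Prod.smul_fst, Pi.smul_apply, smul_eq_mul]
      ring)
    (fun u w w' => by
      rw [← sum_add_distrib]
      refine sum_congr rfl fun a _ => ?_
      simp only [Prod.snd_add, Prod.fst_add, Pi.add_apply]
      ring)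
    (fun c u w => by
      rw [smul_eq_mul, mul_sum]
      refine sum_congr rfl fun a _ => ?_
      simp only [Prod.smul_snd, Prod.smul_fst, Pi.smul_apply, smul_eq_mul]
      ring)

lemma fm_apply (u w : (κ → ZMod 2) × (κ → ZMod 2)) :
    fm u w = ∑ a, (u.2 a * w.1 a + u.1 a * w.2 a) := rfl

lemma fm_inj : Function.Injective (fm (κ := κ)) := by
  rw [← LinearMap.ker_eq_bot, LinearMap.ker_eq_bot']
  intro u hu
  have h1 : ∀ w, fm u w = 0 := fun w => by rw [hu]; rfl
  refine Prod.ext ?_ ?_
  · funext a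
    have := h1 (0, Pi.single a 1)
    rw [fm_apply] at this
    simpa [Pi.single_apply] using this
  · funext a
    have := h1 (Pi.single a 1, 0)
    rw [fm_apply] at this
    simpa [Pi.single_apply] using this

lemma iso_card (S : Finset ((κ → ZMod 2) × (κ → ZMod 2)))
    (h : ∀ u ∈ S, ∀ w ∈ S, ∑ a, (u.2 a * w.1 a + u.1 a * w.2 a) = 0) :
    S.card ≤ 2 ^ Fintype.card κ := by
  classical
  have : Fact (Nat.Prime 2) := ⟨Nat.prime_two⟩
  set W : Submodule (ZMod 2) ((κ → ZMod 2) × (κ → ZMod 2)) :=
    Submodule.span (ZMod 2) (S : Set _) with hW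
  have h1 : ∀ u ∈ S, ∀ w ∈ W, fm u w = 0 := by
    intro u hu w hw
    have : W ≤ LinearMap.ker (fm u) := by
      rw [hW, Submodule.span_le]
      intro t ht
      exact h u hu t ht
    exact this hw
  have h2 : ∀ u ∈ W, ∀ w ∈ W, fm u w = 0 := by
    intro u hu w hw
    have : W ≤ LinearMap.ker (fm.flip w) := by
      rw [hW, Submodule.span_le]
      intro t ht
      exact h1 t ht w hw
    exact this hu
  have h3 : W.map fm ≤ W.dualAnnihilator := by
    rintro _ ⟨u, hu, rfl⟩
    rw [Submodule.mem_dualAnnihilator]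
    intro w hw
    exact h2 u hu w hw
  have h4 : Module.finrank (ZMod 2) W = Module.finrank (ZMod 2) (W.map fm) :=
    (Submodule.equivMapOfInjective fm fm_inj W).finrank_eq
  have h6 := Subspace.finrank_add_finrank_dualAnnihilator_eq W
  have h5 : Module.finrank (ZMod 2) W ≤ Module.finrank (ZMod 2) W.dualAnnihilator :=
    h4.le.trans (Submodule.finrank_mono h3)
  have h7 : Module.finrank (ZMod 2) ((κ → ZMod 2) × (κ → ZMod 2)) = 2 * Fintype.card κ := by
    rw [Module.finrank_prod, Module.finrank_fintype_fun_eq_card]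
    ring
  have h8 : Module.finrank (ZMod 2) W ≤ Fintype.card κ := by omega
  have h9 : Nat.card W = 2 ^ Module.finrank (ZMod 2) W := by
    rw [Module.natCard_eq_pow_finrank (K := ZMod 2)]
    simp
  have h10 : S.card ≤ Nat.card W := by
    have : (S : Set _) ⊆ (W : Set ((κ → ZMod 2) × (κ → ZMod 2))) := Submodule.subset_span
    have h11 := Set.ncard_le_ncard this (Set.toFinite _)
    rw [Set.ncard_coe_finset] at h11
    exact h11
  calc S.card ≤ 2 ^ Module.finrank (ZMod 2) W := by rw [← h9]; exact h10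
    _ ≤ 2 ^ Fintype.card κ := Nat.pow_le_pow_right (by norm_num) h8

end iso

lemma cast_eq_of_mod {a b : ℕ} (h : (a % 2 = 1) ↔ (b % 2 = 1)) : (a : ZMod 2) = (b : ZMod 2) := by
  rw [ZMod.natCast_eq_natCast_iff']
  omega

theorem combk : Pool.Agent.W307.RS.COMBK := by
  intro J _ _ k U hU
  have h1 : ∀ j : J, (U.filter fun i => i.1.1 = j).card ≤ 4 ^ k := by
    intro j
    set φ : IK k J → (Fin k × Fin 2 → ZMod 2) × (Fin k × Fin 2 → ZMod 2) :=
      fun i => (vc i.1.2.1, vc i.1.2.2) with hφ
    have hinj : Set.InjOn φ (U.filter fun i => i.1.1 = j : Finset (IK k J)) := by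
      intro i hi i' hi' h
      rw [mem_coe, mem_filter] at hi hi'
      have e1 := vc_inj (congrArg Prod.fst h)
      have e2 := vc_inj (congrArg Prod.snd h)
      apply Subtype.ext
      refine Prod.ext (hi.2.trans hi'.2.symm) (Prod.ext e1 e2)
    rw [← card_image_of_injOn hinj]
    have h2 := iso_card ((U.filter fun i => i.1.1 = j).image φ) (by
      intro u hu w hw
      rw [mem_image] at hu hw
      obtain ⟨i, hi, rfl⟩ := hu
      obtain ⟨i', hi', rfl⟩ := hw
      rw [mem_filter] at hi hi'
      have h3 := hU i hi.1 i' hi'.1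
      unfold LK at h3
      rw [decide_eq_decide] at h3
      have h4 := cast_eq_of_mod h3
      rw [dK_eq, dK_eq] at h4
      simp only [hφ]
      rw [sum_add_distrib]
      have h5 : ∑ a, vc i.1.2.1 a * vc i'.1.2.2 a = ∑ a, vc i'.1.2.2 a * vc i.1.2.1 a :=
        sum_congr rfl fun a _ => mul_comm _ _
      rw [h5, h4]
      exact CharTwo.add_self_eq_zero _)
    refine h2.trans ?_
    rw [Fintype.card_prod, Fintype.card_fin, Fintype.card_fin, mul_comm, pow_mul]
    norm_num
  have h2 : U.card = ∑ j : J, (U.filter fun i => i.1.1 = j).card :=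
    card_eq_sum_card_fiberwise (fun _ _ => mem_univ _)
  rw [h2]
  refine (sum_le_sum fun j _ => h1 j).trans ?_
  rw [sum_const, card_univ, smul_eq_mul, mul_comm]

end Pool.Agent.W12.RS
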