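import Pool.Agent.W481.RS.Stm1

/-! Task TRS-LC: the number of the integer points with a bounded product of linear forms. -/

set_option autoImplicit false

namespace Pool.Agent.W12.RS

open Finset Pool.Agent.W262.RK Pool.Agent.W307.RT

lemma step_rpow {ε : ℝ} (h0 : 0 ≤ ε) (h1 : ε ≤ 1) (N : ℕ) :
    ε * ((N + 1 : ℕ) : ℝ) ^ (ε - 1) ≤ ((N + 1 : ℕ) : ℝ) ^ ε - (N : ℝ) ^ ε := by
  have hs : (0 : ℝ) < ((N + 1 : ℕ) : ℝ) := by positivity
  set s : ℝ := ((N + 1 : ℕ) : ℝ) with hsd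
  have hN : (N : ℝ) = s * (1 + (-(1 / s))) := by
    have : s = N + 1 := by rw [hsd]; push_cast; ring
    field_simp
    linarith
  have hs1 : 1 / s ≤ 1 := by
    rw [div_le_one hs]
    have : s = N + 1 := by rw [hsd]; push_cast; ring
    rw [this]
    have : (0 : ℝ) ≤ N := by positivity
    linarith
  have h2 : (1 + (-(1 / s))) ^ ε ≤ 1 + ε * (-(1 / s)) :=
    rpow_one_add_le_one_add_mul_self (by linarith) h0 h1
  rw [hN, Real.mul_rpow hs.le (by linarith)]
  have h3 : s ^ (ε - 1) = s ^ ε / s := by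
    rw [Real.rpow_sub hs, Real.rpow_one]
  rw [h3]
  have h4 : 0 ≤ s ^ ε := by positivity
  have h5 := mul_le_mul_of_nonneg_left h2 h4
  have h6 : s ^ ε * (1 + ε * (-(1 / s))) = s ^ ε - ε * (s ^ ε / s) := by ring
  rw [h6] at h5
  linarith

lemma sum_rpow {b : ℕ} (hb : 1 ≤ b) (N : ℕ) :
    ∑ s ∈ Icc 1 N, ((s : ℕ) : ℝ) ^ ((1 : ℝ) / b - 1) ≤ b * (N : ℝ) ^ ((1 : ℝ) / b) := by
  have hb0 : (0 : ℝ) < b := by positivity
  have hb1 : (1 : ℝ) ≤ b := by exact_mod_cast hb
  have he0 : 0 ≤ (1 : ℝ) / b := by positivity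
  have he1 : (1 : ℝ) / b ≤ 1 := by rw [div_le_one hb0]; exact hb1
  induction N with
  | zero => simp; positivity
  | succ N ih =>
    rw [sum_Icc_succ_top (by omega)]
    have h1 := step_rpow he0 he1 N
    have h2 : ((N + 1 : ℕ) : ℝ) ^ ((1 : ℝ) / b - 1) ≤
        b * (((N + 1 : ℕ) : ℝ) ^ ((1 : ℝ) / b) - (N : ℝ) ^ ((1 : ℝ) / b)) := by
      have h3 := mul_le_mul_of_nonneg_left h1 hb0.le
      have h4 : (b : ℝ) * (1 / b * ((N + 1 : ℕ) : ℝ) ^ ((1 : ℝ) / b - 1)) =
          ((N + 1 : ℕ) : ℝ) ^ ((1 : ℝ) / b - 1) := by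
        field_simp
      rw [h4] at h3
      exact h3
    linarith

/-- the bound of the height -/
noncomputable def R0 (A V b s : ℕ) : ℝ := A * V * ((V : ℝ) / s) ^ (1 - (1 : ℝ) / b)

lemma R0_ge {A V b s : ℕ} (hA : 1 ≤ A) (hb : 1 ≤ b) (hs : 1 ≤ s) (hV : 1 ≤ V) (hsV : s ≤ V) :
    1 ≤ R0 A V b s := by
  unfold R0
  have hA' : (1 : ℝ) ≤ A := by exact_mod_cast hA
  have hV' : (1 : ℝ) ≤ V := by exact_mod_cast hV
  have hb' : (1 : ℝ) ≤ b := by exact_mod_cast hb
  have h1 : (1 : ℝ) ≤ (V : ℝ) / s := by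
    rw [le_div_iff₀ (by positivity), one_mul]
    exact_mod_cast hsV
  have h2 : 1 ≤ ((V : ℝ) / s) ^ (1 - (1 : ℝ) / b) := by
    apply Real.one_le_rpow h1
    rw [sub_nonneg, div_le_one (by positivity)]
    exact hb'
  have h3 : (1 : ℝ) ≤ A * V := by nlinarith
  nlinarith

lemma R0_le {A V b s R : ℕ} (hb : 1 ≤ b) (hs : 1 ≤ s) (hV : 1 ≤ V)
    (h : s ^ (b - 1) * R ^ b ≤ A ^ b * V ^ (2 * b - 1)) : (R : ℝ) ≤ R0 A V b s := by
  have hb0 : (0 : ℝ) < b := by positivity
  have hs0 : (0 : ℝ) < s := by positivity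
  have hV0 : (0 : ℝ) < V := by positivity
  have hx0 : 0 ≤ R0 A V b s := by unfold R0; positivity
  rw [← pow_le_pow_iff_left₀ (by positivity) hx0 (show b ≠ 0 by omega)]
  unfold R0
  rw [mul_pow, mul_pow]
  have h1 : (((V : ℝ) / s) ^ (1 - (1 : ℝ) / b)) ^ b = ((V : ℝ) / s) ^ (b - 1) := by
    rw [← Real.rpow_natCast, ← Real.rpow_mul (by positivity), ← Real.rpow_natCast]
    congr 1
    rw [Nat.cast_sub hb]
    field_simp
    simp
  rw [h1, div_pow]
  have h2 : (s : ℝ) ^ (b - 1) * (R : ℝ) ^ b ≤ (A : ℝ) ^ b * (V : ℝ) ^ (2 * b - 1) := by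
    exact_mod_cast h
  have h3 : (V : ℝ) ^ (2 * b - 1) = (V : ℝ) ^ b * (V : ℝ) ^ (b - 1) := by
    rw [← pow_add]; congr 1; omega
  rw [h3] at h2
  rw [← mul_div_assoc, le_div_iff₀ (by positivity)]
  linarith

lemma sum_R0 {A V b : ℕ} (hb : 1 ≤ b) (hV : 1 ≤ V) :
    ∑ s ∈ Icc 1 V, R0 A V b s ≤ A * b * (V : ℝ) ^ 2 := by
  have hV0 : (0 : ℝ) < V := by positivity
  unfold R0
  rw [← mul_sum]
  have h1 : ∑ s ∈ Icc 1 V, ((V : ℝ) / s) ^ (1 - (1 : ℝ) / b) =
      (V : ℝ) ^ (1 - (1 : ℝ) / b) * ∑ s ∈ Icc 1 V, ((s : ℕ) : ℝ) ^ ((1 : ℝ) / b - 1) := by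
    rw [mul_sum]
    refine sum_congr rfl fun s hs => ?_
    have hs0 : (0 : ℝ) < s := by
      have := (mem_Icc.mp hs).1
      positivity
    rw [Real.div_rpow hV0.le hs0.le, div_eq_mul_inv, ← Real.rpow_neg hs0.le]
    congr 2
    ring
  rw [h1]
  have h2 := sum_rpow hb V
  have h3 : (V : ℝ) ^ (1 - (1 : ℝ) / b) * (b * (V : ℝ) ^ ((1 : ℝ) / b)) = b * V := by
    have : (V : ℝ) ^ (1 - (1 : ℝ) / b) * (V : ℝ) ^ ((1 : ℝ) / b) = V := by
      rw [← Real.rpow_add hV0]
      simp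
    calc _ = b * ((V : ℝ) ^ (1 - (1 : ℝ) / b) * (V : ℝ) ^ ((1 : ℝ) / b)) := by ring
      _ = b * V := by rw [this]
  have h4 := mul_le_mul_of_nonneg_left h2 (show 0 ≤ (V : ℝ) ^ (1 - (1 : ℝ) / b) by positivity)
  rw [h3] at h4
  calc (A : ℝ) * V * _ ≤ (A : ℝ) * V * (b * V) := mul_le_mul_of_nonneg_left h4 (by positivity)
    _ = _ := by ring

/-- points on a line -/
lemma line_card {α β : ℤ} (hne : α ≠ 0 ∨ β ≠ 0) (c : ℤ) (N : ℕ) (S : Finset (ℤ × ℤ))
    (h : ∀ t ∈ S, α * t.1 + β * t.2 = c ∧ t.1.natAbs ≤ N ∧ t.2.natAbs ≤ N) :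
    S.card ≤ 2 * N + 1 := by
  have hI : (Icc (-(N : ℤ)) N).card = 2 * N + 1 := by
    rw [Int.card_Icc]; omega
  rw [← hI]
  by_cases hβ : β = 0
  · have hα : α ≠ 0 := by
      rcases hne with h1 | h1
      · exact h1
      · exact absurd hβ h1
    apply card_le_card_of_injOn (fun t => t.2)
    · intro t ht
      have := (h t ht).2.2
      simp only [coe_Icc, Set.mem_Icc]
      omega
    · intro t ht t' ht' heq
      have e1 := (h t ht).1
      have e2 := (h t' ht').1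
      have heq' : t.2 = t'.2 := heq
      rw [hβ, zero_mul, add_zero] at e1 e2
      have : t.1 = t'.1 := mul_left_cancel₀ hα (e1.trans e2.symm)
      exact Prod.ext this heq'
  · apply card_le_card_of_injOn (fun t => t.1)
    · intro t ht
      have := (h t ht).2.1
      simp only [coe_Icc, Set.mem_Icc]
      omega
    · intro t ht t' ht' heq
      have e1 := (h t ht).1
      have e2 := (h t' ht').1
      have heq' : t.1 = t'.1 := heq
      rw [heq'] at e1
      have : t.2 = t'.2 := mul_left_cancel₀ hβ (add_left_cancel (e1.trans e2.symm))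
      exact Prod.ext heq' this

lemma form_card {α β : ℤ} (hne : α ≠ 0 ∨ β ≠ 0) {A b V : ℕ} (hA : 1 ≤ A) (hb : 1 ≤ b)
    (hV : 1 ≤ V) (S : Finset (ℤ × ℤ))
    (h : ∀ t ∈ S, 1 ≤ (α * t.1 + β * t.2).natAbs ∧ (α * t.1 + β * t.2).natAbs ≤ V ∧
      (α * t.1 + β * t.2).natAbs ^ (b - 1) * (max t.1.natAbs t.2.natAbs) ^ b ≤
        A ^ b * V ^ (2 * b - 1)) : S.card ≤ 6 * A * b * V ^ 2 := by
  have h1 : S.card = ∑ s ∈ Icc 1 V, (S.filter fun t => (α * t.1 + β * t.2).natAbs = s).card :=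
    card_eq_sum_card_fiberwise (fun t ht => by
      simp only [coe_Icc, Set.mem_Icc]
      exact ⟨(h t ht).1, (h t ht).2.1⟩)
  have h2 : ∀ s ∈ Icc 1 V, ((S.filter fun t => (α * t.1 + β * t.2).natAbs = s).card : ℝ) ≤
      6 * R0 A V b s := by
    intro s hs
    rw [mem_Icc] at hs
    set N : ℕ := ⌊R0 A V b s⌋₊ with hN
    have hR1 : 1 ≤ R0 A V b s := R0_ge hA hb hs.1 hV hs.2
    have hNle : (N : ℝ) ≤ R0 A V b s := Nat.floor_le (by linarith)
    have hsub : (S.filter fun t => (α * t.1 + β * t.2).natAbs = s) ⊆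
        (S.filter fun t => (α * t.1 + β * t.2).natAbs = s ∧ α * t.1 + β * t.2 = (s : ℤ)) ∪
        (S.filter fun t => (α * t.1 + β * t.2).natAbs = s ∧ α * t.1 + β * t.2 = -(s : ℤ)) := by
      intro t ht
      rw [mem_filter] at ht
      rw [mem_union, mem_filter, mem_filter]
      rcases Int.natAbs_eq (α * t.1 + β * t.2) with h3 | h3
      · left; exact ⟨ht.1, ht.2, by rw [h3, ht.2]⟩
      · right; exact ⟨ht.1, ht.2, by rw [h3, ht.2]⟩
    have hb1 : ∀ t ∈ S, (α * t.1 + β * t.2).natAbs = s → t.1.natAbs ≤ N ∧ t.2.natAbs ≤ N := by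
      intro t ht hts
      have h3 := (h t ht).2.2
      rw [hts] at h3
      have h4 := R0_le hb hs.1 hV h3
      have h5 : max t.1.natAbs t.2.natAbs ≤ N := Nat.le_floor h4
      exact ⟨(le_max_left _ _).trans h5, (le_max_right _ _).trans h5⟩
    have c1 := line_card hne (s : ℤ) N
      (S.filter fun t => (α * t.1 + β * t.2).natAbs = s ∧ α * t.1 + β * t.2 = (s : ℤ)) (by
        intro t ht
        rw [mem_filter] at ht
        exact ⟨ht.2.2, hb1 t ht.1 ht.2.1⟩)
    have c2 := line_card hne (-(s : ℤ)) N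
      (S.filter fun t => (α * t.1 + β * t.2).natAbs = s ∧ α * t.1 + β * t.2 = -(s : ℤ)) (by
        intro t ht
        rw [mem_filter] at ht
        exact ⟨ht.2.2, hb1 t ht.1 ht.2.1⟩)
    have c3 := (card_le_card hsub).trans (card_union_le _ _)
    have c4 : (S.filter fun t => (α * t.1 + β * t.2).natAbs = s).card ≤ 4 * N + 2 := by omega
    have c5 : ((S.filter fun t => (α * t.1 + β * t.2).natAbs = s).card : ℝ) ≤ 4 * N + 2 := by
      exact_mod_cast c4
    linarith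
  have h3 : (S.card : ℝ) ≤ 6 * A * b * (V : ℝ) ^ 2 := by
    rw [h1]
    push_cast
    refine (sum_le_sum h2).trans ?_
    rw [← mul_sum]
    have := sum_R0 (A := A) hb hV
    linarith
  exact_mod_cast h3

theorem lc1 : Pool.Agent.W481.RS.LC1 := by
  intro J _ _ _ α β m hres hm1 hm2
  set A : ℕ := ∑ j, ((α j).natAbs + (β j).natAbs) + 1 with hA
  have hA1 : 1 ≤ A := by omega
  set d : ℕ := ∑ i, m i with hd
  have hcoef : ∀ i j : J, i ≠ j → (α i).natAbs + (α j).natAbs ≤ A ∧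
      (β i).natAbs + (β j).natAbs ≤ A := by
    intro i j hij
    have h1 : ∑ k ∈ {i, j}, ((α k).natAbs + (β k).natAbs) ≤ ∑ k, ((α k).natAbs + (β k).natAbs) :=
      sum_le_sum_of_subset (subset_univ _)
    rw [sum_pair hij] at h1
    omega
  -- Cramer
  have hcr : ∀ (i j : J) (u v : ℤ), i ≠ j → (fv α β u v i).natAbs ≤ (fv α β u v j).natAbs →
      max u.natAbs v.natAbs ≤ A * (fv α β u v j).natAbs := by
    intro i j u v hij hle
    have hr := hres i j hij
    have hr1 : 1 ≤ (Res α β i j).natAbs := Int.natAbs_pos.mpr hr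
    have e1 : Res α β i j * v = α i * fv α β u v j - α j * fv α β u v i := by
      unfold Res fv; ring
    have e2 : Res α β i j * u = β j * fv α β u v i - β i * fv α β u v j := by
      unfold Res fv; ring
    have hc := hcoef i j hij
    apply max_le
    · have h1 : (Res α β i j).natAbs * u.natAbs ≤
          (β j).natAbs * (fv α β u v i).natAbs + (β i).natAbs * (fv α β u v j).natAbs := by
        rw [← Int.natAbs_mul, e2, ← Int.natAbs_mul, ← Int.natAbs_mul]
        exact Int.natAbs_sub_le _ _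
      calc u.natAbs ≤ (Res α β i j).natAbs * u.natAbs := Nat.le_mul_of_pos_left _ hr1
        _ ≤ _ := h1
        _ ≤ (β j).natAbs * (fv α β u v j).natAbs + (β i).natAbs * (fv α β u v j).natAbs := by
            gcongr
        _ = ((β i).natAbs + (β j).natAbs) * (fv α β u v j).natAbs := by ring
        _ ≤ A * (fv α β u v j).natAbs := by gcongr; exact hc.2
    · have h1 : (Res α β i j).natAbs * v.natAbs ≤
          (α i).natAbs * (fv α β u v j).natAbs + (α j).natAbs * (fv α β u v i).natAbs := by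
        rw [← Int.natAbs_mul, e1, ← Int.natAbs_mul, ← Int.natAbs_mul]
        exact Int.natAbs_sub_le _ _
      calc v.natAbs ≤ (Res α β i j).natAbs * v.natAbs := Nat.le_mul_of_pos_left _ hr1
        _ ≤ _ := h1
        _ ≤ (α i).natAbs * (fv α β u v j).natAbs + (α j).natAbs * (fv α β u v j).natAbs := by
            gcongr
        _ = ((α i).natAbs + (α j).natAbs) * (fv α β u v j).natAbs := by ring
        _ ≤ A * (fv α β u v j).natAbs := by gcongr; exact hc.1
  have hb : ∀ i, m i + (∑ j ∈ univ.erase i, m j) = d := fun i =>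
    add_sum_erase _ _ (mem_univ i)
  refine ⟨9 * A ^ 2 + ∑ i : J, 6 * A * (∑ j ∈ univ.erase i, m j), ?_⟩
  intro V hV S hS
  -- minimal forms
  have hmin : ∀ t : ℤ × ℤ, ∃ i : J, ∀ j, (fv α β t.1 t.2 i).natAbs ≤ (fv α β t.1 t.2 j).natAbs := by
    intro t
    obtain ⟨i, hi⟩ := Finite.exists_min (fun j : J => (fv α β t.1 t.2 j).natAbs)
    exact ⟨i, hi⟩
  choose I hI using hmin
  -- the key inequality
  have hkey : ∀ t ∈ S, (fv α β t.1 t.2 (I t)).natAbs ^ m (I t) *
      (max t.1.natAbs t.2.natAbs) ^ (∑ j ∈ univ.erase (I t), m j) ≤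
        A ^ (∑ j ∈ univ.erase (I t), m j) * V ^ d := by
    intro t ht
    have h1 := (hS t ht).2
    rw [← mul_prod_erase _ _ (mem_univ (I t))] at h1
    have h2 : (max t.1.natAbs t.2.natAbs) ^ (∑ j ∈ univ.erase (I t), m j) ≤
        A ^ (∑ j ∈ univ.erase (I t), m j) *
          ∏ j ∈ univ.erase (I t), (fv α β t.1 t.2 j).natAbs ^ m j := by
      rw [← prod_pow_eq_pow_sum, ← prod_pow_eq_pow_sum, ← prod_mul_distrib]
      apply prod_le_prod (fun _ _ => Nat.zero_le _)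
      intro j hj
      rw [← mul_pow]
      apply Nat.pow_le_pow_left
      exact hcr (I t) j t.1 t.2 (ne_of_mem_erase hj).symm (hI t j)
    calc _ ≤ (fv α β t.1 t.2 (I t)).natAbs ^ m (I t) * (A ^ (∑ j ∈ univ.erase (I t), m j) *
          ∏ j ∈ univ.erase (I t), (fv α β t.1 t.2 j).natAbs ^ m j) := by gcongr
      _ = A ^ (∑ j ∈ univ.erase (I t), m j) * ((fv α β t.1 t.2 (I t)).natAbs ^ m (I t) *
          ∏ j ∈ univ.erase (I t), (fv α β t.1 t.2 j).natAbs ^ m j) := by ring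
      _ ≤ _ := by gcongr
  -- the covering
  have hsub : S ⊆ (Icc (-((A * V : ℕ) : ℤ)) ((A * V : ℕ) : ℤ) ×ˢ
        Icc (-((A * V : ℕ) : ℤ)) ((A * V : ℕ) : ℤ)) ∪
      univ.biUnion (fun i : J => S.filter fun t => I t = i ∧ (fv α β t.1 t.2 i).natAbs ≤ V) := by
    intro t ht
    rw [mem_union]
    by_cases hV' : (fv α β t.1 t.2 (I t)).natAbs ≤ V
    · right
      rw [mem_biUnion]
      exact ⟨I t, mem_univ _, mem_filter.mpr ⟨ht, rfl, hV'⟩⟩
    · left
      push Not at hV'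
      have h1 := hkey t ht
      have h2 : max t.1.natAbs t.2.natAbs ≤ A * V := by
        have hb0 : (∑ j ∈ univ.erase (I t), m j) ≠ 0 := by
          have := hb (I t); have := hm2 (I t); omega
        rw [← Nat.pow_le_pow_iff_left hb0, mul_pow]
        have h3 : V ^ m (I t) * (max t.1.natAbs t.2.natAbs) ^ (∑ j ∈ univ.erase (I t), m j) ≤
            A ^ (∑ j ∈ univ.erase (I t), m j) * V ^ d := by
          refine le_trans ?_ h1
          gcongr
        rw [← hb (I t), pow_add] at h3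
        have h4 : V ^ m (I t) * (max t.1.natAbs t.2.natAbs) ^ (∑ j ∈ univ.erase (I t), m j) ≤
            V ^ m (I t) * (A ^ (∑ j ∈ univ.erase (I t), m j) *
              V ^ (∑ j ∈ univ.erase (I t), m j)) := by
          calc _ ≤ _ := h3
            _ = _ := by ring
        exact Nat.le_of_mul_le_mul_left h4 (by positivity)
      have h5 : t.1.natAbs ≤ A * V := (le_max_left _ _).trans h2
      have h6 : t.2.natAbs ≤ A * V := (le_max_right _ _).trans h2
      rw [mem_product, mem_Icc, mem_Icc]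
      omega
  have hc0 : (Icc (-((A * V : ℕ) : ℤ)) ((A * V : ℕ) : ℤ) ×ˢ
        Icc (-((A * V : ℕ) : ℤ)) ((A * V : ℕ) : ℤ)).card ≤ 9 * A ^ 2 * V ^ 2 := by
    rw [card_product, Int.card_Icc]
    have h1 : (((A * V : ℕ) : ℤ) + 1 - -((A * V : ℕ) : ℤ)).toNat = 2 * (A * V) + 1 := by omega
    rw [h1]
    have h2 : 1 ≤ A * V := Nat.mul_pos (by omega) (by omega)
    nlinarith
  have hci : ∀ i : J, (S.filter fun t => I t = i ∧ (fv α β t.1 t.2 i).natAbs ≤ V).card ≤
      6 * A * (∑ j ∈ univ.erase i, m j) * V ^ 2 := by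
    intro i
    set b : ℕ := ∑ j ∈ univ.erase i, m j with hbd
    have hbi := hb i
    have hm2i := hm2 i
    have hm1i := hm1 i
    have hb1 : 1 ≤ b := by omega
    have hne : α i ≠ 0 ∨ β i ≠ 0 := by
      by_contra hc
      push Not at hc
      have hex : (univ.erase i).Nonempty := by
        rw [nonempty_iff_ne_empty]
        intro he
        rw [he, sum_empty] at hbd
        omega
      obtain ⟨j, hj⟩ := hex
      apply hres i j (ne_of_mem_erase hj).symm
      unfold Res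
      rw [hc.1, hc.2]
      ring
    apply form_card hne hA1 hb1 hV
    intro t ht
    rw [mem_filter] at ht
    obtain ⟨htS, htI, htV⟩ := ht
    have h0 : 1 ≤ (fv α β t.1 t.2 i).natAbs := Int.natAbs_pos.mpr ((hS t htS).1 i)
    have h1 := hkey t htS
    rw [htI, ← hbd] at h1
    refine ⟨h0, htV, ?_⟩
    have e0 : α i * t.1 + β i * t.2 = fv α β t.1 t.2 i := rfl
    rw [e0]
    obtain ⟨k, hk⟩ : ∃ k, b - 1 = m i + k := ⟨b - 1 - m i, by omega⟩
    rw [hk, pow_add]
    calc (fv α β t.1 t.2 i).natAbs ^ m i * (fv α β t.1 t.2 i).natAbs ^ k *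
          (max t.1.natAbs t.2.natAbs) ^ b
        = ((fv α β t.1 t.2 i).natAbs ^ m i * (max t.1.natAbs t.2.natAbs) ^ b) *
          (fv α β t.1 t.2 i).natAbs ^ k := by ring
      _ ≤ (A ^ b * V ^ d) * V ^ k := by gcongr
      _ = A ^ b * V ^ (2 * b - 1) := by
          rw [mul_assoc, ← pow_add]
          congr 2
          omega
  calc S.card ≤ _ := card_le_card hsub
    _ ≤ _ := card_union_le _ _
    _ ≤ 9 * A ^ 2 * V ^ 2 + ∑ i : J, 6 * A * (∑ j ∈ univ.erase i, m j) * V ^ 2 := by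
        apply add_le_add hc0
        exact card_biUnion_le.trans (sum_le_sum fun i _ => hci i)
    _ = _ := by rw [add_mul, sum_mul]

end Pool.Agent.W12.RS
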