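import Pool.Agent.W307.RS.Stm
import Pool.Agent.W571.RT.Rank2

/-! Task TRS-RANK2B: the rank bound at a point, values of size `X ^ B` (copy of
`Pool.Agent.W571.RT.Rank2` with a general exponent). -/

set_option autoImplicit false
set_option linter.unusedSectionVars false

namespace Pool.Agent.W12.RS

open Finset Pool.Agent.W262.RK Pool.Agent.W307.RT Pool.Agent.W571.RT

variable {J : Type} [Fintype J] [DecidableEq J]

/-- the number of the primes outside `S1` -/
lemma badMB {cls : J → Fin 4} {a : Fin 3 → ℤ} {μ : J → ℕ} {α β : J → ℤ} {z y X K B : ℕ}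
    (hB : Bg α β z) (ha : ∀ p : ℕ, p.Prime → z < p → ∀ k, ¬ (p : ℤ) ∣ a k) {u v : ℤ}
    (hy : 1 ≤ y) (h0 : ∀ j, fv α β u v j ≠ 0)
    (hb : ∀ j, (fv α β u v j).natAbs ≤ X ^ B) (hK : X < (y + 1) ^ K) :
    ((2 * FM cls a μ (fv α β u v) 0 * FM cls a μ (fv α β u v) 1 *
      FM cls a μ (fv α β u v) 2).natAbs.primeFactors.filter
        (fun q => ¬ q ∣ ∏ j, S1 z y (fv α β u v) j)).card ≤
      z + Fintype.card J * (B * K) + ∑ j, (S2 z y (fv α β u v) j).primeFactors.card := by
  have hsub : ((2 * FM cls a μ (fv α β u v) 0 * FM cls a μ (fv α β u v) 1 *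
      FM cls a μ (fv α β u v) 2).natAbs.primeFactors.filter
        (fun q => ¬ q ∣ ∏ j, S1 z y (fv α β u v) j)) ⊆
      ((Icc 1 z) ∪ univ.biUnion (fun j => (fv α β u v j).natAbs.primeFactors.filter (y < ·))) ∪
        univ.biUnion (fun j => (S2 z y (fv α β u v) j).primeFactors) := by
    intro q hq
    rw [mem_filter] at hq
    have hp := Nat.prime_of_mem_primeFactors hq.1
    have hdv := Nat.dvd_of_mem_primeFactors hq.1
    rw [mem_union, mem_union, mem_Icc]
    rcases Nat.lt_or_ge z q with h | h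
    swap
    · exact Or.inl (Or.inl ⟨hp.one_lt.le, h⟩)
    · have hqi : Prime (q : ℤ) := Nat.prime_iff_prime_int.1 hp
      have hdv2 : (q : ℤ) ∣ 2 * FM cls a μ (fv α β u v) 0 * FM cls a μ (fv α β u v) 1 *
          FM cls a μ (fv α β u v) 2 := Int.natCast_dvd.2 hdv
      have hk : ∃ k, (q : ℤ) ∣ FM cls a μ (fv α β u v) k := by
        rcases hqi.dvd_or_dvd hdv2 with h1 | h1
        · rcases hqi.dvd_or_dvd h1 with h2 | h2
          · rcases hqi.dvd_or_dvd h2 with h3 | h3
            · exfalso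
              have h4 : q ∣ 2 := by exact_mod_cast h3
              have h5 := Nat.le_of_dvd (by norm_num) h4
              have := hB.1
              omega
            · exact ⟨0, h3⟩
          · exact ⟨1, h2⟩
        · exact ⟨2, h1⟩
      obtain ⟨k, hk⟩ := hk
      rcases hqi.dvd_or_dvd hk with h1 | h1
      · exact absurd h1 (ha q hp h k)
      · obtain ⟨l, _, hl'⟩ := (hqi.dvd_finsetProd_iff _).1 h1
        have hl := hqi.dvd_of_dvd_pow hl'
        rcases Nat.lt_or_ge y q with hyq | hyq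
        · left; right
          rw [mem_biUnion]
          refine ⟨l, mem_univ _, ?_⟩
          rw [mem_filter, Nat.mem_primeFactors]
          exact ⟨⟨hp, Int.natCast_dvd.1 hl, Int.natAbs_ne_zero.2 (h0 l)⟩, hyq⟩
        · right
          have hPS : q ∈ PS z y := mem_PS.2 ⟨⟨h, hyq⟩, hp⟩
          rw [mem_biUnion]
          refine ⟨l, mem_univ _, ?_⟩
          have hsq : (q : ℤ) ^ 2 ∣ fv α β u v l := by
            by_contra hcon
            apply hq.2
            refine dvd_trans ?_ (dvd_prod_of_mem _ (mem_univ l))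
            exact dvd_prod_of_mem _ (mem_filter.2 ⟨hPS, hl, hcon⟩)
          rw [Nat.mem_primeFactors]
          refine ⟨hp, dvd_prod_of_mem _ (mem_filter.2 ⟨hPS, hsq⟩), ?_⟩
          exact prod_ne_zero_iff.2 fun p hp => (mem_PS.1 (mem_filter.1 hp).1).2.ne_zero
  have hone : ∀ j, ((fv α β u v j).natAbs.primeFactors.filter (y < ·)).card ≤ B * K := by
    intro j
    set S := (fv α β u v j).natAbs.primeFactors.filter (y < ·) with hS
    have h1 : (y + 1) ^ S.card ≤ ∏ q ∈ S, q :=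
      Finset.pow_card_le_prod _ _ _ (fun q hq => by
        have := (mem_filter.1 hq).2
        omega)
    have h2 : ∏ q ∈ S, q ∣ (fv α β u v j).natAbs :=
      (prod_dvd_prod_of_subset _ _ _ (filter_subset _ _)).trans (Nat.prod_primeFactors_dvd _)
    have h3 : ∏ q ∈ S, q ≤ (fv α β u v j).natAbs :=
      Nat.le_of_dvd (Nat.pos_of_ne_zero (Int.natAbs_ne_zero.2 (h0 j))) h2
    have h4 : (y + 1) ^ S.card ≤ (y + 1) ^ (B * K) := by
      calc (y + 1) ^ S.card ≤ X ^ B := h1.trans (h3.trans (hb j))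
        _ ≤ ((y + 1) ^ K) ^ B := Nat.pow_le_pow_left hK.le _
        _ = (y + 1) ^ (B * K) := by rw [← pow_mul, mul_comm]
    exact (Nat.pow_le_pow_iff_right (by omega)).1 h4
  refine (card_le_card hsub).trans ((card_union_le _ _).trans (add_le_add
    ((card_union_le _ _).trans (add_le_add ?_ ?_)) card_biUnion_le))
  · simp
  · refine card_biUnion_le.trans ?_
    refine (sum_le_sum fun j _ => hone j).trans ?_
    rw [sum_const, card_univ, smul_eq_mul]

theorem rank2b_of (hloc : Pool.Agent.W307.RT.LOCM) : Pool.Agent.W307.RS.RANK2B := by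
  intro J _ _ cls a μ α β z B hc3 ha0 hμ hB ha hev hκ0 hκ hodd hFF X y k u v huv h0 hb hX hy hk
  have hF := hFF u v
  set f := fv α β u v with hf
  have hFne : ∀ k, FM cls a μ f k ≠ 0 := fun k =>
    mul_ne_zero (ha0 k) (prod_ne_zero_iff.2 fun l _ => pow_ne_zero _ (h0 l))
  have hz2 : 2 ≤ z := by have := hB.1; omega
  set s := S1 z y f with hs
  have hmem : s ∈ Tup J z y := S1_mem (fun p hp hzp j l hjl h =>
    fv_not_dvd hB hp hzp huv hjl h.1 h.2)
  have hmd : ∏ j, s j ∣ PP z y := Tup_prod_dvd hmem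
  have hPSof : ∀ p : ℕ, p.Prime → p ∣ ∏ j, s j → p ∈ PS z y := fun p hp h =>
    (prime_dvd_PP hp).1 (h.trans hmd)
  have hnκ : ∀ p : ℕ, p.Prime → p ∣ ∏ j, s j → ∀ j, ¬ (p : ℤ) ∣ kapM cls a μ α β j := by
    intro p hp h j hd
    have h1 := (mem_PS.1 (hPSof p hp h)).1.1
    have h2 := Nat.le_of_dvd (Int.natAbs_pos.2 (hκ0 j)) (Int.natCast_dvd.1 hd)
    have h3 := hκ j
    omega
  have hodd2 : ∀ p : ℕ, p.Prime → p ∣ ∏ j, s j → p ≠ 2 := by
    intro p hp h
    have h1 := (mem_PS.1 (hPSof p hp h)).1.1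
    omega
  have hxc : XCL := Pool.Agent.W342.RK2.xcl
  have hdesc : DESC4 := Pool.Agent.W214.RK2.desc4
  have hd := hdesc (∏ j, s j) (LLs cls (fun j _ => kapM cls a μ α β j) s ∅)
    (FM cls a μ f 0) (FM cls a μ f 1) (hFne 0) (hFne 1)
    (fun h => hFne 2 (by rw [← hF, h, sub_self]))
    (by
      rw [← Nat.not_even_iff_odd, even_iff_two_dvd]
      intro h
      exact hodd2 2 Nat.prime_two h rfl)
    ((PP_squarefree z y).squarefree_of_dvd hmd)
    (fun p hp hpd => ⟨fun j hj => (hxc _ _ _ p hp (hodd2 p hp hpd)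
        (fun _ => hnκ p hp hpd j)).1,
      fun a1 b1 c1 d1 a2 b2 c2 d2 e1 e2 j hj =>
        (hxc _ _ _ p hp (hodd2 p hp hpd) (fun _ => hnκ p hp hpd j)).2 a1 b1 c1 d1 a2 b2 c2 d2
          (e1 j hj) (e2 j hj)⟩)
    (fun p hp hpd x x' hx' hcurve e1 e2 he1 he2 hsq1 hsq2 j hj => by
      have hpp : p.Prime := Fact.out
      have hjs := (S1_dvd_iff hpp).1 hj
      have hzp := (mem_PS.1 hjs.1).1.1
      have hfin := hloc (cls j) (kapM cls a μ α β j) p (FM cls a μ f 0) (FM cls a μ f 1) (hc3 j)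
        (hodd2 p hpp hpd) (hnκ p hpp hpd j) (hFne 0) (hFne 1)
        (fun h => hFne 2 (by rw [← hF, h, sub_self]))
        (locHM hB ha hev hμ hpp hzp huv hF (h0 j) hjs.2.1 hjs.2.2 (hc3 j) (hnκ p hpp hpd j)
          (hodd j)) x x' hx' hcurve e1 e2 he1 he2 hsq1 hsq2
      have hdec : decide (p ∈ (∅ : Finset ℕ)) = false := by simp
      rw [hdec]
      exact hfin)
  rw [hF] at hd
  refine hd.trans (Nat.mul_le_mul_right _ ?_)
  have hc := badMB (cls := cls) (μ := μ) (y := y) hB ha hy h0 hb hk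
  rw [← hf, ← hs] at hc
  calc 4 ^ (((2 * FM cls a μ f 0 * FM cls a μ f 1 *
        FM cls a μ f 2).natAbs.primeFactors.filter (fun q => ¬ q ∣ ∏ j, s j)).card + 2)
      ≤ 4 ^ ((z + 2) + (Fintype.card J * (B * k)) + ∑ j, (S2 z y f j).primeFactors.card) :=
        Nat.pow_le_pow_right (by norm_num) (by omega)
    _ = _ := by
        rw [pow_add, pow_add]
        congr 2
        rw [← pow_mul, ← pow_mul]
        congr 1
        ring

end Pool.Agent.W12.RS
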